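import Pool.Agent.Q208.EL.Tool

/-!
# Project EL (helper72), job LIFT2: over every admissible point there is a point of the variety on
the given end
-/

set_option autoImplicit false

namespace Pool.Agent.Q208.EL

open MvPolynomial Filter Topology Metric Pool.Agent.Q72.EL

theorem gap_abs {ι : Type} (F : Finset ι) {c : ℕ} {lam : Fin c → ℝ}
    (hlam : LinearIndependent ℚ lam) (v : ι → Fin c → ℚ) :
    ∃ δ K₀ : ℝ, 0 < δ ∧ 1 ≤ K₀ ∧ ∀ i ∈ F, v i ≠ 0 → ∀ K T : ℝ, K₀ ≤ K → 0 ≤ T →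
      ∀ L : Fin c → ℝ, (∀ j, |L j + lam j * T| ≤ T / K) →
        δ * T ≤ |∑ j, ((v i j : ℚ) : ℝ) * L j| := by
  obtain ⟨δ, K₀, hδ, hK₀, h⟩ := gap_fin F lam (fun i j => ((v i j : ℚ) : ℝ))
  obtain ⟨δ', K', hδ', hK', h'⟩ := gap_fin F lam (fun i j => -((v i j : ℚ) : ℝ))
  refine ⟨min δ δ', max K₀ K', lt_min hδ hδ', hK₀.trans (le_max_left _ _), ?_⟩
  intro i hi hv K T hK hT L hL
  have hne : ∑ j, ((v i j : ℚ) : ℝ) * lam j ≠ 0 := fun h0 => hv (indep hlam h0)
  rcases lt_or_gt_of_ne hne with h0 | h0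
  · have h1 := h' i hi (by
      simp only [neg_mul, Finset.sum_neg_distrib]
      linarith) K T ((le_max_right _ _).trans hK) hT L hL
    simp only [neg_mul, Finset.sum_neg_distrib] at h1
    have h2 : min δ δ' * T ≤ δ' * T := mul_le_mul_of_nonneg_right (min_le_right _ _) hT
    exact le_trans (by linarith) (le_abs_self _)
  · have h1 := h i hi h0 K T ((le_max_left _ _).trans hK) hT L hL
    have h2 : min δ δ' * T ≤ δ * T := mul_le_mul_of_nonneg_right (min_le_left _ _) hT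
    exact le_trans (by linarith) (neg_le_abs _)

section gen

variable {n c : ℕ} {E : Type} [Field E] [Algebra ℂ E] (G : Gen n c E)

/-- the coordinates -/
noncomputable def gz : Fin c ⊕ Fin n → E := Sum.elim (fun j => G.y (G.i j)) G.x

theorem mon_ne (α : Fin c → ℕ) : ∏ j, G.y (G.i j) ^ α j ≠ 0 :=
  Finset.prod_ne_zero_iff.2 fun _ _ => pow_ne_zero _ (G.hy _)

theorem mon_lt {α β : Fin c → ℕ} (h : ∑ j, (α j : ℝ) * G.lam j < ∑ j, (β j : ℝ) * G.lam j) :
    G.O.valuation (∏ j, G.y (G.i j) ^ β j) < G.O.valuation (∏ j, G.y (G.i j) ^ α j) := by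
  have h1 : G.O.valuation (∏ j, G.y (G.i j) ^ ((β j : ℤ) - (α j : ℤ))) < 1 := by
    refine G.hmon (fun j => (β j : ℤ) - (α j : ℤ)) ?_
    have e : ∑ j, (((β j : ℤ) - (α j : ℤ) : ℤ) : ℝ) * G.lam j =
        ∑ j, (β j : ℝ) * G.lam j - ∑ j, (α j : ℝ) * G.lam j := by
      rw [← Finset.sum_sub_distrib]
      refine Finset.sum_congr rfl fun j _ => ?_
      push_cast
      ring
    rw [e]
    linarith
  have h2 : ∏ j, G.y (G.i j) ^ β j =
      (∏ j, G.y (G.i j) ^ ((β j : ℤ) - (α j : ℤ))) * ∏ j, G.y (G.i j) ^ α j := by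
    rw [← Finset.prod_mul_distrib]
    refine Finset.prod_congr rfl fun j _ => ?_
    rw [← zpow_natCast, ← zpow_natCast, ← zpow_add₀ (G.hy _)]
    congr 1
    ring
  have h3 : G.O.valuation (∏ j, G.y (G.i j) ^ α j) ≠ 0 :=
    (Valuation.ne_zero_iff _).2 (mon_ne G α)
  rw [h2, map_mul]
  calc G.O.valuation (∏ j, G.y (G.i j) ^ ((β j : ℤ) - (α j : ℤ))) *
        G.O.valuation (∏ j, G.y (G.i j) ^ α j) < 1 * G.O.valuation (∏ j, G.y (G.i j) ^ α j) :=
        mul_lt_mul_of_pos_right h1 (zero_lt_iff.2 h3)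
    _ = _ := one_mul _

theorem aeval_z_ne {A : MvPolynomial (Fin c ⊕ Fin n) ℂ} (h : ∃ α, cf A α ∉ G.I) :
    aeval (gz G) A ≠ 0 := by
  classical
  obtain ⟨s, hs⟩ : ∃ s, s = (sumAlgEquiv ℂ (Fin c) (Fin n) A).support := ⟨_, rfl⟩
  obtain ⟨F, hF⟩ : ∃ F : Finset (Fin c →₀ ℕ), F = s.filter (fun α => cf A α ∉ G.I) := ⟨_, rfl⟩
  have hFm : ∀ α, cf A α ∉ G.I → α ∈ F := by
    intro α hα
    rw [hF, Finset.mem_filter, hs]
    refine ⟨?_, hα⟩
    rw [mem_support_iff]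
    intro h0
    apply hα
    have h1 : cf A α = 0 := h0
    rw [h1]
    exact G.I.zero_mem
  have hFne : F.Nonempty := by
    obtain ⟨α, hα⟩ := h
    exact ⟨α, hFm α hα⟩
  obtain ⟨α₀, hα₀, hmin⟩ := F.exists_min_image (fun α => ∑ j, (α j : ℝ) * G.lam j) hFne
  have hα₀' : α₀ ∈ s ∧ cf A α₀ ∉ G.I := by
    rw [hF] at hα₀
    exact Finset.mem_filter.1 hα₀
  have hlt : ∀ α ∈ F, α ≠ α₀ → ∑ j, (α₀ j : ℝ) * G.lam j < ∑ j, (α j : ℝ) * G.lam j := by
    intro α hα hne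
    refine lt_of_le_of_ne (hmin α hα) fun h0 => hne ?_
    have h1 : (fun j => ((α j : ℚ) - (α₀ j : ℚ))) = 0 := by
      refine indep G.hlam ?_
      have e : ∑ j, ((((α j : ℚ) - (α₀ j : ℚ)) : ℚ) : ℝ) * G.lam j =
          ∑ j, (α j : ℝ) * G.lam j - ∑ j, (α₀ j : ℝ) * G.lam j := by
        rw [← Finset.sum_sub_distrib]
        refine Finset.sum_congr rfl fun j _ => ?_
        push_cast
        ring
      rw [e, h0, sub_self]
    ext j
    have h2 := congrFun h1 j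
    simp only [Pi.zero_apply] at h2
    have h3 : (α j : ℚ) = (α₀ j : ℚ) := by linarith
    exact_mod_cast h3
  intro h0
  unfold gz at h0
  rw [Pool.Agent.Q72.EL.aeval_sum, ← hs, ← Finset.add_sum_erase _ _ hα₀'.1] at h0
  have h3 := eq_neg_of_add_eq_zero_left h0
  have hx1 : ∀ α, cf A α ∉ G.I → G.O.valuation (aeval G.x (cf A α)) = 1 := fun α hα =>
    G.hO _ fun h1 => hα ((G.mem_I _).2 h1)
  have h4 : G.O.valuation (aeval G.x (cf A α₀) * ∏ j, G.y (G.i j) ^ α₀ j) =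
      G.O.valuation (∏ j, G.y (G.i j) ^ α₀ j) := by
    rw [map_mul, hx1 _ hα₀'.2, one_mul]
  have h5 : G.O.valuation (∑ α ∈ s.erase α₀, aeval G.x (cf A α) * ∏ j, G.y (G.i j) ^ α j) <
      G.O.valuation (∏ j, G.y (G.i j) ^ α₀ j) := by
    apply Valuation.map_sum_lt _ ((Valuation.ne_zero_iff _).2 (mon_ne G _))
    intro α hα
    have hne := Finset.ne_of_mem_erase hα
    by_cases hI : cf A α ∈ G.I
    · rw [(G.mem_I _).1 hI, zero_mul, map_zero]
      exact zero_lt_iff.2 ((Valuation.ne_zero_iff _).2 (mon_ne G _))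
    · rw [map_mul, hx1 _ hI, one_mul]
      exact mon_lt G (hlt α (hFm α hI) hne)
  rw [← h4, h3, Valuation.map_neg] at h5
  exact lt_irrefl _ h5

theorem aeval_z_zero {A : MvPolynomial (Fin c ⊕ Fin n) ℂ} (h : aeval (gz G) A = 0) :
    ∀ α, cf A α ∈ G.I := by
  by_contra hno
  push Not at hno
  exact aeval_z_ne G hno h

theorem exists_of_ne {A : MvPolynomial (Fin c ⊕ Fin n) ℂ} (h : aeval (gz G) A ≠ 0) :
    ∃ α, cf A α ∉ G.I := by
  by_contra hno
  push Not at hno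
  apply h
  unfold gz
  rw [Pool.Agent.Q72.EL.aeval_sum]
  exact Finset.sum_eq_zero fun α _ => by rw [(G.mem_I _).1 (hno α), zero_mul]

theorem pt_z {x : Fin n → ℂ} (Y : Fin c → ℂ) (h : ∀ g ∈ G.I, eval x g = 0) :
    Sum.elim Y x ∈ Pool.Agent.Q72.EG.Pt (gz G) := by
  intro g hg
  rw [eval_sum']
  refine Finset.sum_eq_zero fun α _ => ?_
  rw [h _ (aeval_z_zero G hg α), zero_mul]

end gen

theorem zpow_split {K : Type} [Field K] (y : K) (hy : y ≠ 0) (m : ℤ) :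
    y ^ m = y ^ m.toNat * (y⁻¹) ^ (-m).toNat := by
  conv_lhs => rw [← Int.toNat_sub_toNat_neg m]
  rw [zpow_sub₀ hy, zpow_natCast, zpow_natCast, inv_pow, div_eq_mul_inv]

theorem prod_zpow_const {Γ : Type} [CommGroupWithZero Γ] {ι : Type} (s : Finset ι) (a : Γ)
    (ha : a ≠ 0) (k : ι → ℤ) : ∏ l ∈ s, a ^ k l = a ^ (∑ l ∈ s, k l) := by
  classical
  induction s using Finset.induction_on with
  | empty => simp
  | insert i s hi ih => rw [Finset.prod_insert hi, Finset.sum_insert hi, zpow_add₀ ha, ih]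

section alg

variable {n c : ℕ} {E : Type} [Field E] [Algebra ℂ E] (G : Gen n c E)

/-- the functions to be lifted -/
noncomputable def gf (m : Fin n → ℤ) (H : MvPolynomial (Fin n ⊕ Fin n) ℂ) :
    Fin n ⊕ Fin n ⊕ Fin 2 → E :=
  Sum.elim G.y (Sum.elim (fun l => (G.y l)⁻¹)
    ![∏ l, G.y l ^ m l, (aeval (Sum.elim G.x G.y) H)⁻¹])

theorem gf_alg (m : Fin n → ℤ) (H : MvPolynomial (Fin n ⊕ Fin n) ℂ) (k : Fin n ⊕ Fin n ⊕ Fin 2) :
    IsAlgebraic (IntermediateField.adjoin ℂ (Set.range (gz G))) (gf G m H k) := by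
  set K := IntermediateField.adjoin ℂ (Set.range (gz G)) with hK
  have hy : ∀ l, G.y l ∈ algebraicClosure K E := fun l =>
    (mem_algebraicClosure_iff (F := K)).2 (G.halg l)
  have hx : ∀ l, G.x l ∈ algebraicClosure K E := fun l => by
    rw [mem_algebraicClosure_iff]
    have h1 : G.x l ∈ K := IntermediateField.subset_adjoin _ _ ⟨Sum.inr l, rfl⟩
    exact isAlgebraic_algebraMap (⟨G.x l, h1⟩ : K)
  have hc : ∀ c : ℂ, algebraMap ℂ E c ∈ algebraicClosure K E := fun c => by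
    rw [mem_algebraicClosure_iff]
    have h1 : algebraMap ℂ E c ∈ K := K.algebraMap_mem c
    exact isAlgebraic_algebraMap (⟨algebraMap ℂ E c, h1⟩ : K)
  have hH : aeval (Sum.elim G.x G.y) H ∈ algebraicClosure K E := by
    induction H using MvPolynomial.induction_on with
    | C c =>
      rw [MvPolynomial.aeval_C]
      exact hc c
    | add p q hp hq =>
      rw [map_add]
      exact add_mem hp hq
    | mul_X p i hp =>
      rw [map_mul, aeval_X]
      refine mul_mem hp ?_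
      rcases i with i | i
      · exact hx i
      · exact hy i
  rw [← mem_algebraicClosure_iff]
  rcases k with l | l | i
  · exact hy l
  · exact inv_mem (hy l)
  · fin_cases i
    · have e : gf G m H (Sum.inr (Sum.inr 0)) = ∏ l, G.y l ^ m l := rfl
      show gf G m H (Sum.inr (Sum.inr 0)) ∈ _
      rw [e]
      exact prod_mem fun l _ => zpow_mem (hy l) (m l)
    · exact inv_mem hH

theorem val_f0 (m : Fin n → ℤ) : G.O.valuation (∏ l, G.y l ^ m l) ^ G.N =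
    G.O.valuation (∏ j, G.y (G.i j) ^ (∑ l, m l * G.b l j)) := by
  have e : ∏ j, G.y (G.i j) ^ (∑ l, m l * G.b l j) = ∏ l, (∏ j, G.y (G.i j) ^ G.b l j) ^ m l := by
    have e1 : ∀ j, G.y (G.i j) ^ (∑ l, m l * G.b l j) = ∏ l, G.y (G.i j) ^ (m l * G.b l j) :=
      fun j => (prod_zpow_const Finset.univ _ (G.hy _) _).symm
    simp only [e1]
    rw [Finset.prod_comm]
    refine Finset.prod_congr rfl fun l _ => ?_
    rw [← Finset.prod_zpow]
    refine Finset.prod_congr rfl fun j _ => ?_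
    rw [← zpow_mul, mul_comm]
  rw [e, map_prod, map_prod, ← Finset.prod_pow]
  refine Finset.prod_congr rfl fun l _ => ?_
  rw [map_zpow₀, map_zpow₀, ← zpow_natCast, zpow_comm, zpow_natCast, G.hb l]

end alg

theorem lift (h1 : S_dom) (h2 : S_slope) (h3 : S_newt) (h4 : S_val)
    (h5 : Pool.Agent.Q72.EG.S_lift0) (h6 : Pool.Agent.Q72.EG.S_sep) : S_lift := by
  intro n c E _ _ G H hH
  classical
  have hIp := G.I_prime
  -- equations of the functions `y_l`
  have ha : ∀ l, ∃ A : Polynomial (MvPolynomial (Fin c ⊕ Fin n) ℂ),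
      (∃ b α, cf (A.coeff b) α ∉ G.I) ∧
      (A.map (aeval (gz G) : MvPolynomial (Fin c ⊕ Fin n) ℂ →ₐ[ℂ] E).toRingHom).eval (G.y l) = 0 := by
    intro l
    obtain ⟨A, _, -, ⟨b, hb⟩, g3, -⟩ := h5 E (Fin c ⊕ Fin n) Unit (gz G) (fun _ => G.y l) ()
      (fun _ => G.halg l)
    obtain ⟨α, hα⟩ := exists_of_ne G hb
    exact ⟨A, ⟨b, α, hα⟩, g3⟩
  choose A hA1 hA2 using ha
  have hs := fun l => h2 n c G.I G.lam (A l) hIp G.hlam (hA1 l)
  choose R S hR hS using hs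
  obtain ⟨Φ, hΦ⟩ : ∃ Φ : Finset (Fin n → Fin c → ℚ), Φ = Fintype.piFinset S := ⟨_, rfl⟩
  have hΦm : ∀ σ, (∀ l, σ l ∈ S l) → σ ∈ Φ := fun σ hσ => by
    rw [hΦ, Fintype.mem_piFinset]
    exact hσ
  obtain ⟨dt, hdt⟩ : ∃ dt : (Fin c → ℚ) → ℝ, dt = fun v => ∑ j, ((v j : ℚ) : ℝ) * G.lam j :=
    ⟨_, rfl⟩
  obtain ⟨m, hm⟩ := h6 n ((fun (σ : Fin n → Fin c → ℚ) l => dt (σ l)) '' (Φ : Set (Fin n → Fin c → ℚ)))
    (fun l => dt (G.a l)) ((Φ.finite_toSet).image _)
  -- all the functions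
  obtain ⟨A0, H0, g1, ⟨b0, g2⟩, g3, g4⟩ := h5 E (Fin c ⊕ Fin n) (Fin n ⊕ Fin n ⊕ Fin 2) (gz G)
    (gf G m H) (Sum.inr (Sum.inr 0)) (gf_alg G m H)
  obtain ⟨F, hFm, hFe⟩ := exists_F G.I A0
  obtain ⟨f0, hf0⟩ : ∃ f0 : E, f0 = ∏ l, G.y l ^ m l := ⟨_, rfl⟩
  have hf0ne : f0 ≠ 0 := by
    rw [hf0]
    exact Finset.prod_ne_zero_iff.2 fun l _ => zpow_ne_zero _ (G.hy l)
  obtain ⟨F', hF'⟩ : ∃ F' : Finset ((Fin c →₀ ℕ) × ℕ), F' = F.image Prod.swap := ⟨_, rfl⟩
  have hF'm : ∀ e : (Fin c →₀ ℕ) × ℕ, e ∈ F' ↔ cf (A0.coeff e.2) e.1 ∉ G.I := by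
    intro e
    rw [hF', Finset.mem_image]
    constructor
    · rintro ⟨e', he', rfl⟩
      exact (hFm e').1 he'
    · intro he
      exact ⟨e.swap, (hFm _).2 he, Prod.swap_swap e⟩
  have hF'ne : F'.Nonempty := by
    obtain ⟨α, hα⟩ := exists_of_ne G g2
    exact ⟨(α, b0), (hF'm (α, b0)).2 hα⟩
  have hx0 : ∀ g ∈ G.I, aeval G.x g = 0 := fun g hg => (G.mem_I g).1 hg
  have hsum : ∑ e ∈ F', aeval G.x (cf (A0.coeff e.2) e.1) * (∏ j, G.y (G.i j) ^ e.1 j) * f0 ^ e.2 = 0 := by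
    have h7 := hFe E G.x (fun j => G.y (G.i j)) f0 hx0
    have h8 : (A0.map (aeval (Sum.elim (fun j => G.y (G.i j)) G.x) :
        MvPolynomial (Fin c ⊕ Fin n) ℂ →ₐ[ℂ] E).toRingHom).eval f0 = 0 := by
      rw [hf0]
      exact g3
    rw [h8] at h7
    rw [hF', Finset.sum_image (fun _ _ _ _ h => Prod.swap_injective h)]
    exact h7.symm
  have hval : G.O.valuation f0 ^ G.N =
      G.O.valuation (∏ j, G.y (G.i j) ^ (∑ l, m l * G.b l j)) := by
    rw [hf0]
    exact val_f0 G m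
  obtain ⟨e₁, he₁, e₂, he₂, hne, hmin⟩ := h4 c E G.O G.lam F'
    (fun e => aeval G.x (cf (A0.coeff e.2) e.1)) (fun j => G.y (G.i j)) f0 G.N
    (fun j => ∑ l, m l * G.b l j) G.hlam hF'ne
    (fun e he => G.hO _ fun h0 => (hF'm e).1 he ((G.mem_I _).2 h0))
    (fun j => G.hy _) hf0ne G.hmon G.hN hval hsum
  obtain ⟨r, hr⟩ : ∃ r : Fin c → ℚ, r = fun j => ((∑ l, m l * G.b l j : ℤ) : ℚ) / G.N := ⟨_, rfl⟩
  have hrj : ∀ j, ((r j : ℚ) : ℝ) = ((∑ l, m l * G.b l j : ℤ) : ℝ) / G.N := by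
    intro j
    rw [hr]
    push_cast
    rfl
  have hra : ∀ j, r j = ∑ l, (m l : ℚ) * G.a l j := by
    intro j
    rw [hr]
    push_cast
    rw [Finset.sum_div]
    refine Finset.sum_congr rfl fun l _ => ?_
    unfold Gen.a
    ring
  obtain ⟨R1, hR1, hN1⟩ := h3 n c G.I G.lam A0 r e₁.2 e₂.2 e₁.1 e₂.1 hIp G.hlam hne
    ((hF'm e₁).1 he₁) ((hF'm e₂).1 he₂) (fun b α hbα => by
      have h7 := hmin (α, b) ((hF'm (α, b)).2 hbα)
      simp only [hrj]
      exact h7)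
  obtain ⟨R2, hR2, hN2⟩ := h1 n c G.I G.lam H0 hIp G.hlam (exists_of_ne G g1)
  refine ⟨(∏ l, R l) * R1 * R2, ?_, ?_⟩
  · intro hd
    rcases hIp.mem_or_mem hd with h7 | h7
    · rcases hIp.mem_or_mem h7 with h8 | h8
      · exact prod_notMem hIp Finset.univ R (fun l _ => hR l) h8
      · exact hR1 h8
    · exact hR2 h7
  intro R' hR' D
  have d1 : ∀ l, R l ∣ R' := fun l => ((Finset.dvd_prod_of_mem R (Finset.mem_univ l)).trans
    (Dvd.intro _ rfl)).trans ((Dvd.intro _ rfl : (∏ l, R l) * R1 ∣ (∏ l, R l) * R1 * R2).trans hR')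
  have d2 : R1 ∣ R' := ((Dvd.intro_left _ rfl).trans
    (Dvd.intro _ rfl : (∏ l, R l) * R1 ∣ (∏ l, R l) * R1 * R2)).trans hR'
  have d3 : R2 ∣ R' := (Dvd.intro_left _ rfl).trans hR'
  have hSl := fun l => hS l R' (d1 l) D
  choose D1 K1 hK1 hS1 using hSl
  obtain ⟨D2, K2, hK2, hS2⟩ := hN1 R' d2 D
  obtain ⟨K3, hK3, hS3⟩ := hN2 R' d3 D
  -- the gap
  obtain ⟨δ, K4, hδ, hK4, hgap⟩ := gap_abs Φ G.hlam
    (fun (σ : Fin n → Fin c → ℚ) j => ∑ l, (m l : ℚ) * σ l j - r j)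
  obtain ⟨D3, hD3⟩ : ∃ D3 : ℝ, D3 = |D2| + ∑ l, |(m l : ℝ)| * |D1 l| := ⟨_, rfl⟩
  obtain ⟨K5, hK5, hlog⟩ := log_small D3 hδ
  obtain ⟨K, hK⟩ : ∃ K : ℝ, K = (∑ l, K1 l) + K2 + K3 + K4 + K5 := ⟨_, rfl⟩
  have hsK : 0 ≤ ∑ l, K1 l := Finset.sum_nonneg fun l _ => le_trans zero_le_one (hK1 l)
  have k1 : ∀ l, K1 l ≤ K := fun l => by
    have := Finset.single_le_sum (fun l _ => le_trans zero_le_one (hK1 l)) (Finset.mem_univ l)
    linarith
  have k2 : K2 ≤ K := by linarith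
  have k3 : K3 ≤ K := by linarith
  have k4 : K4 ≤ K := by linarith
  have k5 : K5 ≤ K := by linarith
  refine ⟨∑ l, |D1 l|, K, by linarith, ?_⟩
  intro T hT x Y hadm
  have hT2 : 2 ≤ T := hK5.trans (k5.trans hT)
  have hT0 : 0 ≤ T := by linarith
  have hlT : 0 < Real.log T := Real.log_pos (by linarith)
  have a1 : ∀ l, Adm G.I G.lam R' D (K1 l) T x Y := fun l =>
    hadm.mono (lt_of_lt_of_le one_pos (hK1 l)) (k1 l) hT0
  have a2 : Adm G.I G.lam R' D K2 T x Y := hadm.mono (lt_of_lt_of_le one_pos hK2) k2 hT0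
  have a3 : Adm G.I G.lam R' D K3 T x Y := hadm.mono (lt_of_lt_of_le one_pos hK3) k3 hT0
  obtain ⟨hxI, -, -, hYs⟩ := hadm
  obtain ⟨Z, hZ0, hZr, hZs⟩ := hS2 T (k2.trans hT) x Y a2
  have hH0 := hS3 T (k3.trans hT) x Y a3
  obtain ⟨p, hp, hpt, hpZ⟩ := g4 (Sum.elim Y x) (pt_z G Y hxI) hH0 Z hZr
  set y : Fin n → ℂ := fun l => p (Sum.inr (Sum.inl l)) with hy
  set y' : Fin n → ℂ := fun l => p (Sum.inr (Sum.inr (Sum.inl l))) with hy'
  -- relations
  have r1 : ∀ l, y l * y' l = 1 := by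
    intro l
    have h7 := hp (X (Sum.inr (Sum.inl l)) * X (Sum.inr (Sum.inr (Sum.inl l))) - 1) (by
      rw [map_sub, map_mul, aeval_X, aeval_X, map_one]
      show G.y l * (G.y l)⁻¹ - 1 = 0
      rw [mul_inv_cancel₀ (G.hy l), sub_self])
    rw [map_sub, map_mul, eval_X, eval_X, map_one] at h7
    exact sub_eq_zero.1 h7
  have hyne : ∀ l, y l ≠ 0 := fun l => left_ne_zero_of_mul_eq_one (r1 l)
  have hyinv : ∀ l, y' l = (y l)⁻¹ := fun l => eq_inv_of_mul_eq_one_right (r1 l)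
  have r2 : ∀ j, y (G.i j) = Y j := by
    intro j
    have hpn : p (Sum.inl (Sum.inl j)) = Y j := hpt (Sum.inl j)
    have h7 := hp (X (Sum.inr (Sum.inl (G.i j))) - X (Sum.inl (Sum.inl j))) (by
      rw [map_sub, aeval_X, aeval_X]
      show G.y (G.i j) - G.y (G.i j) = 0
      rw [sub_self])
    rw [map_sub, eval_X, eval_X, hpn] at h7
    exact sub_eq_zero.1 h7
  let ι : Fin n ⊕ Fin n → (Fin c ⊕ Fin n) ⊕ (Fin n ⊕ Fin n ⊕ Fin 2) :=
    Sum.elim (fun l => Sum.inl (Sum.inr l)) (fun l => Sum.inr (Sum.inl l))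
  have hι1 : (Sum.elim (gz G) (gf G m H)) ∘ ι = Sum.elim G.x G.y := by
    funext i
    rcases i with l | l
    · rfl
    · rfl
  have hι2 : p ∘ ι = Sum.elim x y := by
    funext i
    rcases i with l | l
    · exact hpt (Sum.inr l)
    · rfl
  have hren : ∀ g : MvPolynomial (Fin n ⊕ Fin n) ℂ, eval p (rename ι g) = eval (Sum.elim x y) g := by
    intro g
    rw [eval_rename, hι2]
  have hren' : ∀ g : MvPolynomial (Fin n ⊕ Fin n) ℂ, aeval (Sum.elim (gz G) (gf G m H)) (rename ι g) =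
      aeval (Sum.elim G.x G.y) g := by
    intro g
    rw [aeval_rename, hι1]
  have r3 : eval (Sum.elim x y) H ≠ 0 := by
    have h7 := hp (rename ι H * X (Sum.inr (Sum.inr (Sum.inr 1))) - 1) (by
      rw [map_sub, map_mul, hren', aeval_X, map_one]
      show aeval (Sum.elim G.x G.y) H * (aeval (Sum.elim G.x G.y) H)⁻¹ - 1 = 0
      rw [mul_inv_cancel₀ hH, sub_self])
    rw [map_sub, map_mul, hren, eval_X, map_one] at h7
    exact left_ne_zero_of_mul_eq_one (sub_eq_zero.1 h7)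
  have r4 : Sum.elim x y ∈ Pool.Agent.Q72.EG.Pt (Sum.elim G.x G.y) := by
    intro g hg
    have h7 := hp (rename ι g) (by rw [hren', hg])
    rwa [hren] at h7
  have r5 : Z = ∏ l, y l ^ m l := by
    have h7 := hp (X (Sum.inr (Sum.inr (Sum.inr 0))) - ∏ l, X (Sum.inr (Sum.inl l)) ^ (m l).toNat *
        X (Sum.inr (Sum.inr (Sum.inl l))) ^ (-m l).toNat) (by
      rw [map_sub, map_prod, aeval_X]
      show ∏ l, G.y l ^ m l - _ = 0
      rw [sub_eq_zero]
      refine Finset.prod_congr rfl fun l _ => ?_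
      rw [map_mul, map_pow, map_pow, aeval_X, aeval_X]
      exact zpow_split _ (G.hy l) (m l))
    rw [map_sub, map_prod, eval_X, hpZ] at h7
    rw [sub_eq_zero.1 h7]
    refine Finset.prod_congr rfl fun l _ => ?_
    rw [map_mul, map_pow, map_pow, eval_X, eval_X]
    show y l ^ (m l).toNat * y' l ^ (-m l).toNat = _
    rw [hyinv, zpow_split _ (hyne l) (m l)]
  have r6 : ∀ l, ((A l).map (eval (Sum.elim Y x))).eval (y l) = 0 := by
    intro l
    let g : MvPolynomial ((Fin c ⊕ Fin n) ⊕ (Fin n ⊕ Fin n ⊕ Fin 2)) ℂ :=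
      ((A l).map (rename (Sum.inl : Fin c ⊕ Fin n → (Fin c ⊕ Fin n) ⊕ (Fin n ⊕ Fin n ⊕ Fin 2)) :
        MvPolynomial (Fin c ⊕ Fin n) ℂ →ₐ[ℂ] _).toRingHom).eval (X (Sum.inr (Sum.inl l)))
    have h7 : aeval (Sum.elim (gz G) (gf G m H)) g =
        ((A l).map (aeval (gz G) : MvPolynomial (Fin c ⊕ Fin n) ℂ →ₐ[ℂ] E).toRingHom).eval
          (G.y l) := by
      show (aeval (Sum.elim (gz G) (gf G m H)) :
        MvPolynomial ((Fin c ⊕ Fin n) ⊕ (Fin n ⊕ Fin n ⊕ Fin 2)) ℂ →ₐ[ℂ] E).toRingHom g = _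
      rw [← Polynomial.eval₂_hom, ← Polynomial.eval_map, Polynomial.map_map]
      congr 1
      · exact aeval_X _ _
      · congr 1
        apply MvPolynomial.ringHom_ext
        · intro c
          simp
        · intro i
          simp
    have h8 : eval p g = ((A l).map (eval (Sum.elim Y x))).eval (y l) := by
      show (eval p) g = _
      rw [← Polynomial.eval₂_hom, ← Polynomial.eval_map, Polynomial.map_map]
      congr 1
      · exact eval_X _
      · congr 1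
        apply MvPolynomial.ringHom_ext
        · intro c
          simp
        · intro i
          simp [hpt i]
    rw [← h8]
    exact hp g (by rw [h7, hA2 l])
  -- the sizes
  have hsz := fun l => hS1 l T ((k1 l).trans hT) x Y (a1 l) (y l) (hyne l) (r6 l)
  choose σ hσS hσ using hsz
  obtain ⟨L, hL⟩ : ∃ L : Fin c → ℝ, L = fun j => Real.log ‖Y j‖ := ⟨_, rfl⟩
  have hLj : ∀ j, Real.log ‖Y j‖ = L j := fun j => by rw [hL]
  simp only [hLj] at hσ hZs ⊢
  have hLb : ∀ j, |L j + G.lam j * T| ≤ T / K := fun j => by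
    rw [← hLj]
    exact (hYs j).2
  have hlogZ : Real.log ‖Z‖ = ∑ l, (m l : ℝ) * Real.log ‖y l‖ := by
    rw [r5, norm_prod, Real.log_prod]
    · refine Finset.sum_congr rfl fun l _ => ?_
      rw [norm_zpow, Real.log_zpow]
    · intro l _
      exact (norm_pos_iff.2 (zpow_ne_zero _ (hyne l))).ne'
  have hτ : (fun j => ∑ l, (m l : ℚ) * σ l j - r j) = 0 := by
    by_contra hne2
    have h7 := hgap σ (hΦm σ hσS) hne2 K T k4 hT0 L hLb
    have h8 : |∑ j, (((∑ l, (m l : ℚ) * σ l j - r j) : ℚ) : ℝ) * L j| ≤ D3 * Real.log T := by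
      have h9 : ∑ j, (((∑ l, (m l : ℚ) * σ l j - r j) : ℚ) : ℝ) * L j =
          (Real.log ‖Z‖ - ∑ j, ((r j : ℚ) : ℝ) * L j) -
            ∑ l, (m l : ℝ) * (Real.log ‖y l‖ - ∑ j, ((σ l j : ℚ) : ℝ) * L j) := by
        rw [hlogZ]
        simp only [mul_sub, Finset.sum_sub_distrib]
        have e1 : ∑ j, (((∑ l, (m l : ℚ) * σ l j - r j) : ℚ) : ℝ) * L j =
            ∑ j, ∑ l, (m l : ℝ) * (((σ l j : ℚ) : ℝ) * L j) - ∑ j, ((r j : ℚ) : ℝ) * L j := by
          rw [← Finset.sum_sub_distrib]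
          refine Finset.sum_congr rfl fun j _ => ?_
          push_cast
          rw [sub_mul, Finset.sum_mul]
          congr 1
          exact Finset.sum_congr rfl fun l _ => by ring
        have e2 : ∑ l, (m l : ℝ) * ∑ j, ((σ l j : ℚ) : ℝ) * L j =
            ∑ j, ∑ l, (m l : ℝ) * (((σ l j : ℚ) : ℝ) * L j) := by
          rw [Finset.sum_comm]
          exact Finset.sum_congr rfl fun l _ => by rw [Finset.mul_sum]
        rw [e1, e2]
        ring
      rw [h9]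
      refine (abs_sub _ _).trans ?_
      rw [hD3, add_mul, Finset.sum_mul]
      refine add_le_add ?_ ?_
      · exact hZs.trans (mul_le_mul_of_nonneg_right (le_abs_self _) hlT.le)
      · refine (Finset.abs_sum_le_sum_abs _ _).trans (Finset.sum_le_sum fun l _ => ?_)
        rw [abs_mul, mul_assoc]
        refine mul_le_mul_of_nonneg_left ?_ (abs_nonneg _)
        exact (hσ l).trans (mul_le_mul_of_nonneg_right (le_abs_self _) hlT.le)
    have h9 := hlog T (k5.trans hT)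
    exact absurd (h7.trans h8) (not_le.2 h9)
  have hσa : ∀ l, σ l = G.a l := by
    have h7 : (fun l => dt (σ l)) = fun l => dt (G.a l) := by
      refine hm _ ⟨σ, hΦm σ hσS, rfl⟩ ?_
      have e1 : ∀ ω : Fin n → Fin c → ℚ, ∑ l, (m l : ℝ) * dt (ω l) =
          ∑ j, ((∑ l, (m l : ℚ) * ω l j : ℚ) : ℝ) * G.lam j := by
        intro ω
        rw [hdt]
        simp only [Finset.mul_sum]
        rw [Finset.sum_comm]
        refine Finset.sum_congr rfl fun j _ => ?_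
        push_cast
        rw [Finset.sum_mul]
        exact Finset.sum_congr rfl fun l _ => by ring
      rw [e1, e1]
      refine Finset.sum_congr rfl fun j _ => ?_
      have h8 := congrFun hτ j
      simp only [Pi.zero_apply] at h8
      rw [← hra j, sub_eq_zero.1 h8]
    intro l
    have h8 := congrFun h7 l
    simp only [hdt] at h8
    have h9 : (fun j => σ l j - G.a l j) = 0 := by
      refine indep G.hlam ?_
      have e : ∑ j, (((σ l j - G.a l j) : ℚ) : ℝ) * G.lam j =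
          ∑ j, ((σ l j : ℚ) : ℝ) * G.lam j - ∑ j, ((G.a l j : ℚ) : ℝ) * G.lam j := by
        rw [← Finset.sum_sub_distrib]
        refine Finset.sum_congr rfl fun j _ => ?_
        push_cast
        ring
      rw [e, h8, sub_self]
    funext j
    have h10 := congrFun h9 j
    simp only [Pi.zero_apply] at h10
    exact sub_eq_zero.1 h10
  refine ⟨y, r4, hyne, r2, r3, fun l => ?_⟩
  have h7 := hσ l
  rw [hσa l] at h7
  refine h7.trans (mul_le_mul_of_nonneg_right ?_ hlT.le)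
  exact (le_abs_self _).trans (Finset.single_le_sum (f := fun l => |D1 l|)
    (fun l _ => abs_nonneg _) (Finset.mem_univ l))

end Pool.Agent.Q208.EL
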