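import Pool.Agent.Q208.EL.Tool
import Pool.Agent.Q206.EG.Ann

/-!
# Project EL (helper72), job NEWT2: a root with a prescribed slope vector
-/

set_option autoImplicit false

namespace Pool.Agent.Q208.EL

open MvPolynomial Filter Topology Metric Pool.Agent.Q72.EL

/-- the normalised polynomial -/
noncomputable def qp {ι : Type} (F : Finset (ℕ × ι)) (t : ℕ × ι → ℂ) : Polynomial ℂ :=
  ∑ e ∈ F, Polynomial.monomial e.1 (t e)

theorem qp_eval {ι : Type} (F : Finset (ℕ × ι)) (t : ℕ × ι → ℂ) (z : ℂ) :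
    (qp F t).eval z = ∑ e ∈ F, t e * z ^ e.1 := by
  unfold qp
  rw [Polynomial.eval_finsetSum]
  exact Finset.sum_congr rfl fun e _ => Polynomial.eval_monomial

theorem qp_coeff {ι : Type} (F : Finset (ℕ × ι)) (t : ℕ × ι → ℂ) (b : ℕ) :
    (qp F t).coeff b = ∑ e ∈ F.filter (fun e => e.1 = b), t e := by
  unfold qp
  rw [Polynomial.finsetSum_coeff, Finset.sum_filter]
  exact Finset.sum_congr rfl fun e _ => Polynomial.coeff_monomial

theorem qp_deg {ι : Type} (F : Finset (ℕ × ι)) (t : ℕ × ι → ℂ) :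
    (qp F t).natDegree ≤ F.sup Prod.fst := by
  unfold qp
  refine Polynomial.natDegree_sum_le_of_forall_le _ _ fun e he => ?_
  exact (Polynomial.natDegree_monomial_le _).trans (Finset.le_sup (f := Prod.fst) he)

theorem norm_coeff_le {ι : Type} (F : Finset (ℕ × ι)) (t : ℕ × ι → ℂ) (C : ℝ) (hC : 0 ≤ C)
    (h : ∀ e ∈ F, ‖t e‖ ≤ C) (b : ℕ) : ‖(qp F t).coeff b‖ ≤ F.card * C := by
  rw [qp_coeff]
  refine (norm_sum_le _ _).trans ?_
  refine (Finset.sum_le_card_nsmul _ _ C fun e he => h e (Finset.mem_filter.1 he).1).trans ?_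
  rw [nsmul_eq_mul]
  refine mul_le_mul_of_nonneg_right ?_ hC
  exact_mod_cast Finset.card_le_card (Finset.filter_subset _ _)

theorem norm_coeff_ge {ι : Type} (F : Finset (ℕ × ι)) (t : ℕ × ι → ℂ) (C c : ℝ) (hC : 0 ≤ C)
    (b : ℕ) (j : ι) (hbj : (b, j) ∈ F) (h : ∀ e ∈ F, e.1 = b → e.2 ≠ j → ‖t e‖ ≤ C)
    (hc : c ≤ ‖t (b, j)‖) : c - F.card * C ≤ ‖(qp F t).coeff b‖ := by
  classical
  have hmem : (b, j) ∈ F.filter (fun e => e.1 = b) := Finset.mem_filter.2 ⟨hbj, rfl⟩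
  rw [qp_coeff, ← Finset.add_sum_erase _ _ hmem]
  have h1 : ‖∑ e ∈ (F.filter (fun e => e.1 = b)).erase (b, j), t e‖ ≤ F.card * C := by
    refine (norm_sum_le _ _).trans ?_
    refine (Finset.sum_le_card_nsmul _ _ C ?_).trans ?_
    · intro e he
      obtain ⟨hne, hm⟩ := Finset.mem_erase.1 he
      obtain ⟨hF, hb⟩ := Finset.mem_filter.1 hm
      exact h e hF hb (fun hj => hne (Prod.ext hb hj))
    · rw [nsmul_eq_mul]
      refine mul_le_mul_of_nonneg_right ?_ hC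
      exact_mod_cast Finset.card_le_card ((Finset.erase_subset _ _).trans
        (Finset.filter_subset _ _))
  have h2 := norm_sub_norm_le (t (b, j)) (-∑ e ∈ (F.filter (fun e => e.1 = b)).erase (b, j), t e)
  rw [norm_neg, sub_neg_eq_add] at h2
  linarith

theorem newt : S_newt := by
  classical
  intro n c I lam A r b₁ b₂ α₁ α₂ hI hlam hb h1 h2 hmin
  obtain ⟨F, hF, hev⟩ := exists_F I A
  obtain ⟨g, hg⟩ : ∃ g : ℕ × (Fin c →₀ ℕ) → MvPolynomial (Fin n) ℂ,
    g = fun e => cf (A.coeff e.1) e.2 := ⟨_, rfl⟩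
  have hge : ∀ e, g e = cf (A.coeff e.1) e.2 := fun e => by rw [hg]
  have hnd : ∏ e ∈ F, g e ∉ I := prod_notMem hI F g (fun e he => by
    rw [hge]; exact (hF e).1 he)
  obtain ⟨w, hw⟩ : ∃ w : ℕ × (Fin c →₀ ℕ) → Fin c → ℚ, w = fun e j =>
    ((e.2 j : ℚ) + e.1 * r j) - ((α₁ j : ℚ) + b₁ * r j) := ⟨_, rfl⟩
  have hwj : ∀ e j, ((w e j : ℚ) : ℝ) =
      ((e.2 j : ℝ) + e.1 * ((r j : ℚ) : ℝ)) - ((α₁ j : ℝ) + b₁ * ((r j : ℚ) : ℝ)) := by
    intro e j
    rw [hw]
    push_cast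
    ring
  have hwr : ∀ e, ∑ j, ((w e j : ℚ) : ℝ) * lam j =
      ∑ j, ((e.2 j : ℝ) + e.1 * ((r j : ℚ) : ℝ)) * lam j -
        ∑ j, ((α₁ j : ℝ) + b₁ * ((r j : ℚ) : ℝ)) * lam j := by
    intro e
    rw [← Finset.sum_sub_distrib]
    refine Finset.sum_congr rfl fun j _ => ?_
    rw [hwj]
    ring
  have hw0 : ∀ e ∈ F, 0 ≤ ∑ j, ((w e j : ℚ) : ℝ) * lam j := by
    intro e he
    rw [hwr]
    have := (hmin e.1 e.2 ((hF e).1 he)).1
    linarith
  have hw1 : w (b₁, α₁) = 0 := by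
    funext j
    rw [hw]
    simp
  have hw2 : w (b₂, α₂) = 0 := by
    refine indep hlam ?_
    refine le_antisymm ?_ (hw0 _ ((hF _).2 h2))
    rw [hwr]
    have := (hmin b₁ α₁ h1).2
    simp only
    linarith
  have hwpos : ∀ e ∈ F, w e ≠ 0 → 0 < ∑ j, ((w e j : ℚ) : ℝ) * lam j := by
    intro e he hne
    exact lt_of_le_of_ne (hw0 e he) fun h => hne (indep hlam h.symm)
  obtain ⟨δ, K₀, hδ, hK₀, hgap⟩ := gap_fin F lam (fun e j => ((w e j : ℚ) : ℝ))
  refine ⟨∏ e ∈ F, g e, hnd, ?_⟩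
  intro R' hR' D
  obtain ⟨D1, hD1, htwo⟩ := Pool.Agent.Q206.EG.two F g R'
    (fun e he => (Finset.dvd_prod_of_mem g he).trans hR') D
  obtain ⟨s, hs, hc⟩ := Pool.Agent.Q206.EG.const_le (F.card : ℝ)
  obtain ⟨N, hN⟩ := Pool.Agent.Q206.EG.ann (F.sup Prod.fst)
  obtain ⟨K₁, hK₁, hexp⟩ := exp_small (s + 2 * D1 + 1) hδ
  refine ⟨N * (D1 + s + 2), max K₀ K₁, hK₀.trans (le_max_left _ _), ?_⟩
  intro T hT x Y hA
  have hTK1 : K₁ ≤ T := (le_max_right _ _).trans hT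
  have hT2 : (2 : ℝ) ≤ T := hK₁.trans hTK1
  have hT0 : (0 : ℝ) < T := by linarith
  have hT1 : (1 : ℝ) < T := by linarith
  have hlT : 0 < Real.log T := Real.log_pos hT1
  obtain ⟨hxP, hx, hR, hY⟩ := hA
  have hY0 : ∀ j, Y j ≠ 0 := fun j => (hY j).1
  obtain ⟨L, hL⟩ : ∃ L : Fin c → ℝ, L = fun j => Real.log ‖Y j‖ := ⟨_, rfl⟩
  have hLj : ∀ j, Real.log ‖Y j‖ = L j := fun j => by rw [hL]
  have hLb : ∀ j, |L j + lam j * T| ≤ T / max K₀ K₁ := fun j => by
    rw [← hLj]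
    exact (hY j).2
  have hgap' : ∀ e ∈ F, w e ≠ 0 →
      Real.exp (∑ j, ((w e j : ℚ) : ℝ) * L j) ≤ T ^ (-(s + 2 * D1 + 1)) := by
    intro e he hne
    have h3 := hgap e he (hwpos e he hne) (max K₀ K₁) T (le_max_left _ _) hT0.le L hLb
    exact (Real.exp_le_exp.2 h3).trans (hexp T hTK1)
  have hle1 : ∀ e ∈ F, Real.exp (∑ j, ((w e j : ℚ) : ℝ) * L j) ≤ 1 := by
    intro e he
    by_cases hne : w e = 0
    · rw [hne]
      simp
    · refine (hgap' e he hne).trans ?_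
      rw [Real.rpow_neg hT0.le]
      apply inv_le_one_of_one_le₀
      exact Real.one_le_rpow hT1.le (by linarith)
  obtain ⟨ρ, hρ⟩ : ∃ ρ : ℝ, ρ = Real.exp (∑ j, ((r j : ℚ) : ℝ) * L j) := ⟨_, rfl⟩
  have hρ0 : 0 < ρ := by
    rw [hρ]
    exact Real.exp_pos _
  obtain ⟨m, hm⟩ : ∃ m : ℝ, m = ∑ j, ((α₁ j : ℝ) + b₁ * ((r j : ℚ) : ℝ)) * L j := ⟨_, rfl⟩
  obtain ⟨t, ht⟩ : ∃ t : ℕ × (Fin c →₀ ℕ) → ℂ, t = fun e =>
      ((Real.exp (-m) : ℝ) : ℂ) * (eval x (g e) * (∏ j, Y j ^ e.2 j) * (ρ : ℂ) ^ e.1) := ⟨_, rfl⟩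
  have htn : ∀ e, ‖t e‖ = ‖eval x (g e)‖ * Real.exp (∑ j, ((w e j : ℚ) : ℝ) * L j) := by
    intro e
    have e1 : ∑ j, ((w e j : ℚ) : ℝ) * L j =
        -m + ∑ j, (e.2 j : ℝ) * L j + e.1 * ∑ j, ((r j : ℚ) : ℝ) * L j := by
      rw [hm, Finset.mul_sum, neg_add_eq_sub, sub_add_eq_add_sub, ← Finset.sum_add_distrib,
        ← Finset.sum_sub_distrib]
      refine Finset.sum_congr rfl fun j _ => ?_
      rw [hwj]
      ring
    rw [ht]
    simp only [norm_mul, norm_pow, Complex.norm_real]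
    rw [Real.norm_of_nonneg (Real.exp_pos _).le, Real.norm_of_nonneg hρ0.le, norm_mon hY0, hρ,
      ← Real.exp_nat_mul, e1, Real.exp_add, Real.exp_add]
    simp only [hLj]
    ring
  have hev2 : ∀ z : ℂ, (qp F t).eval z =
      ((Real.exp (-m) : ℝ) : ℂ) * (A.map (eval (Sum.elim Y x))).eval ((ρ : ℂ) * z) := by
    intro z
    rw [qp_eval, exists_FC I A F hev x Y _ hxP, Finset.mul_sum]
    refine Finset.sum_congr rfl fun e _ => ?_
    rw [ht, mul_pow]
    simp only [hge]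
    ring
  obtain ⟨M, hM⟩ : ∃ M : ℝ, M = T ^ (D1 + s + 1) := ⟨_, rfl⟩
  have hM1 : 1 ≤ M := by
    rw [hM]
    exact Real.one_le_rpow hT1.le (by linarith)
  have hM0 : 0 < M := by linarith
  have hup : ∀ b, ‖(qp F t).coeff b‖ ≤ M := by
    intro b
    refine (norm_coeff_le F t (T ^ D1) (by positivity) (fun e he => ?_) b).trans ?_
    · rw [htn]
      have a1 := (htwo T hT2 x hx hR e he).2
      have a2 := hle1 e he
      calc _ ≤ T ^ D1 * 1 := mul_le_mul a1 a2 (by positivity) (by positivity)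
        _ = T ^ D1 := mul_one _
    · rw [hM]
      calc (F.card : ℝ) * T ^ D1 ≤ T ^ s * T ^ D1 :=
            mul_le_mul_of_nonneg_right (hc T hT2) (by positivity)
        _ = T ^ (s + D1) := (Real.rpow_add hT0 _ _).symm
        _ ≤ T ^ (D1 + s + 1) := Real.rpow_le_rpow_of_exponent_le hT1.le (by linarith)
  have hlow : ∀ (b : ℕ) (α : Fin c →₀ ℕ), cf (A.coeff b) α ∉ I → w (b, α) = 0 →
      M⁻¹ ≤ ‖(qp F t).coeff b‖ := by
    intro b α hbα hwz
    have hbF : (b, α) ∈ F := (hF (b, α)).2 hbα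
    have hge2 := norm_coeff_ge F t (T ^ D1 * T ^ (-(s + 2 * D1 + 1))) (T ^ (-D1)) (by positivity)
      b α hbF
      (fun e he hb hj => by
        rw [htn]
        have a1 := (htwo T hT2 x hx hR e he).2
        have a2 := hgap' e he (fun h0 => hj (by
          ext j
          have h3 := congrFun h0 j
          have h4 := congrFun hwz j
          rw [hw] at h3 h4
          simp only [Pi.zero_apply] at h3 h4
          rw [hb] at h3
          have h5 : (e.2 j : ℚ) = (α j : ℚ) := by linarith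
          exact_mod_cast h5))
        exact mul_le_mul a1 a2 (by positivity) (by positivity))
      (by
        rw [htn, hwz]
        simp only [Pi.zero_apply, Rat.cast_zero, zero_mul, Finset.sum_const_zero, Real.exp_zero,
          mul_one]
        exact (htwo T hT2 x hx hR _ hbF).1)
    refine le_trans ?_ hge2
    have e1 : (F.card : ℝ) * (T ^ D1 * T ^ (-(s + 2 * D1 + 1))) ≤ T ^ (-D1 - 1) := by
      calc (F.card : ℝ) * (T ^ D1 * T ^ (-(s + 2 * D1 + 1)))
          ≤ T ^ s * (T ^ D1 * T ^ (-(s + 2 * D1 + 1))) := by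
            have := hc T hT2
            gcongr
        _ = T ^ (-D1 - 1) := by
            rw [← Real.rpow_add hT0, ← Real.rpow_add hT0]
            congr 1
            ring
    have e2 : 2 * T ^ (-D1 - 1) ≤ T ^ (-D1) := by
      rw [Real.rpow_sub hT0, Real.rpow_one]
      rw [mul_div_assoc', div_le_iff₀ hT0, mul_comm]
      exact mul_le_mul_of_nonneg_left hT2 (by positivity)
    have e3 : M⁻¹ ≤ T ^ (-D1 - 1) := by
      rw [hM, ← Real.rpow_neg hT0.le]
      apply Real.rpow_le_rpow_of_exponent_le hT1.le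
      linarith
    linarith
  obtain ⟨z, hz, hz1, hz2⟩ := hN (qp F t) M b₁ b₂ hM1 (qp_deg F t) hup hb
    (hlow b₁ α₁ h1 hw1) (hlow b₂ α₂ h2 hw2)
  have hMN : (0 : ℝ) < M ^ N * 2 ^ N := by positivity
  have hzpos : 0 < ‖z‖ := (inv_pos.2 hMN).trans_le hz1
  have hlogM : Real.log (M ^ N * 2 ^ N) ≤ N * (D1 + s + 2) * Real.log T := by
    rw [Real.log_mul (by positivity) (by positivity), Real.log_pow, Real.log_pow, hM,
      Real.log_rpow hT0]
    have : Real.log 2 ≤ Real.log T := Real.log_le_log (by norm_num) hT2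
    have : (N : ℝ) * Real.log 2 ≤ N * Real.log T :=
      mul_le_mul_of_nonneg_left this (Nat.cast_nonneg _)
    linarith
  refine ⟨(ρ : ℂ) * z, mul_ne_zero (by exact_mod_cast hρ0.ne') (norm_pos_iff.1 hzpos), ?_, ?_⟩
  · have := hev2 z
    rw [hz] at this
    rcases mul_eq_zero.1 this.symm with h | h
    · exfalso
      have : Real.exp (-m) = 0 := by exact_mod_cast h
      exact (Real.exp_pos _).ne' this
    · exact h
  · simp only [hLj]
    rw [norm_mul, Complex.norm_real, Real.norm_of_nonneg hρ0.le,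
      Real.log_mul hρ0.ne' hzpos.ne', hρ, Real.log_exp, add_sub_cancel_left, abs_le]
    constructor
    · have := Real.log_le_log (inv_pos.2 hMN) hz1
      rw [Real.log_inv] at this
      linarith
    · exact (Real.log_le_log hzpos hz2).trans hlogM

end Pool.Agent.Q208.EL
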