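import Pool.Agent.Q72.EL.Stm
import Pool.Agent.Q206.EG.Tool

/-!
# Project EL (helper72): tools (expansion, exponential gaps)
-/

set_option autoImplicit false

namespace Pool.Agent.Q208.EL

open MvPolynomial Filter Topology Metric Pool.Agent.Q72.EL

/-- the set of the exponents with a coefficient outside the ideal -/
theorem exists_F {n c : ℕ} (I : Ideal (MvPolynomial (Fin n) ℂ))
    (A : Polynomial (MvPolynomial (Fin c ⊕ Fin n) ℂ)) :
    ∃ F : Finset (ℕ × (Fin c →₀ ℕ)), (∀ e, e ∈ F ↔ cf (A.coeff e.1) e.2 ∉ I) ∧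
      ∀ (S : Type) [CommRing S] [Algebra ℂ S] (x : Fin n → S) (Y : Fin c → S) (Z : S),
        (∀ g ∈ I, aeval x g = 0) →
        (A.map (aeval (Sum.elim Y x) : MvPolynomial (Fin c ⊕ Fin n) ℂ →ₐ[ℂ] S).toRingHom).eval Z =
          ∑ e ∈ F, aeval x (cf (A.coeff e.1) e.2) * (∏ j, Y j ^ e.2 j) * Z ^ e.1 := by
  classical
  obtain ⟨B, hB⟩ : ∃ B, B = A.natDegree := ⟨_, rfl⟩
  obtain ⟨J, hJ⟩ : ∃ J : Finset (Fin c →₀ ℕ), J = (Finset.range (B + 1)).biUnion
    (fun b => (sumAlgEquiv ℂ (Fin c) (Fin n) (A.coeff b)).support) := ⟨_, rfl⟩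
  have hJsub : ∀ b ∈ Finset.range (B + 1), (sumAlgEquiv ℂ (Fin c) (Fin n) (A.coeff b)).support ⊆ J := by
    intro b hb
    rw [hJ]
    exact Finset.subset_biUnion_of_mem (fun b => (sumAlgEquiv ℂ (Fin c) (Fin n) (A.coeff b)).support) hb
  have hcf0 : ∀ (H : MvPolynomial (Fin c ⊕ Fin n) ℂ) (α : Fin c →₀ ℕ),
      α ∉ (sumAlgEquiv ℂ (Fin c) (Fin n) H).support → cf H α = 0 := by
    intro H α hα
    unfold cf
    exact notMem_support_iff.1 hα
  have hz : ∀ e : ℕ × (Fin c →₀ ℕ), cf (A.coeff e.1) e.2 ∉ I → e ∈ Finset.range (B + 1) ×ˢ J := by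
    intro e he
    by_contra hcon
    apply he
    rw [Finset.mem_product, not_and_or] at hcon
    have h0 : cf (A.coeff e.1) e.2 = 0 := by
      by_cases h1 : e.1 ∈ Finset.range (B + 1)
      · refine hcf0 _ _ fun h2 => ?_
        rcases hcon with h | h
        · exact h h1
        · exact h (hJsub _ h1 h2)
      · have : A.coeff e.1 = 0 := by
          rw [Finset.mem_range] at h1
          exact Polynomial.coeff_eq_zero_of_natDegree_lt (by omega)
        rw [this]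
        unfold cf
        simp
    rw [h0]
    exact I.zero_mem
  refine ⟨(Finset.range (B + 1) ×ˢ J).filter (fun e => cf (A.coeff e.1) e.2 ∉ I), ?_, ?_⟩
  · intro e
    rw [Finset.mem_filter]
    exact ⟨fun h => h.2, fun h => ⟨hz e h, h⟩⟩
  · intro S _ _ x Y Z hx
    rw [Polynomial.eval_map, Polynomial.eval₂_eq_sum_range, ← hB]
    rw [Finset.sum_filter_of_ne]
    · rw [Finset.sum_product]
      refine Finset.sum_congr rfl fun b hb => ?_
      change aeval (Sum.elim Y x) (A.coeff b) * Z ^ b = _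
      rw [Pool.Agent.Q72.EL.aeval_sum, Finset.sum_mul]
      refine Finset.sum_subset (hJsub b hb) ?_
      intro α _ hα
      rw [hcf0 _ _ hα, map_zero, zero_mul, zero_mul]
    · intro e _ hne hmem
      apply hne
      rw [hx _ hmem, zero_mul, zero_mul]

theorem exists_FC {n c : ℕ} (I : Ideal (MvPolynomial (Fin n) ℂ))
    (A : Polynomial (MvPolynomial (Fin c ⊕ Fin n) ℂ)) (F : Finset (ℕ × (Fin c →₀ ℕ)))
    (h : ∀ (S : Type) [CommRing S] [Algebra ℂ S] (x : Fin n → S) (Y : Fin c → S) (Z : S),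
        (∀ g ∈ I, aeval x g = 0) →
        (A.map (aeval (Sum.elim Y x) : MvPolynomial (Fin c ⊕ Fin n) ℂ →ₐ[ℂ] S).toRingHom).eval Z =
          ∑ e ∈ F, aeval x (cf (A.coeff e.1) e.2) * (∏ j, Y j ^ e.2 j) * Z ^ e.1)
    (x : Fin n → ℂ) (Y : Fin c → ℂ) (Z : ℂ) (hx : ∀ g ∈ I, eval x g = 0) :
    (A.map (eval (Sum.elim Y x))).eval Z =
      ∑ e ∈ F, eval x (cf (A.coeff e.1) e.2) * (∏ j, Y j ^ e.2 j) * Z ^ e.1 := by
  have h1 := h ℂ x Y Z (fun g hg => by
    rw [MvPolynomial.aeval_eq_eval]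
    exact hx g hg)
  simp only [MvPolynomial.aeval_eq_eval] at h1
  exact h1

theorem prod_notMem {n : ℕ} {ι : Type} {I : Ideal (MvPolynomial (Fin n) ℂ)} (hI : I.IsPrime)
    (F : Finset ι) (g : ι → MvPolynomial (Fin n) ℂ) (h : ∀ i ∈ F, g i ∉ I) :
    ∏ i ∈ F, g i ∉ I := by
  intro hd
  obtain ⟨i, hi, hdi⟩ := hI.prod_mem_iff.1 hd
  exact h i hi hdi

/-- at admissible points the monomials with positive weight are exponentially small -/
theorem gap {c : ℕ} {lam v : Fin c → ℝ} (hv : 0 < ∑ j, v j * lam j) :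
    ∃ δ K₀ : ℝ, 0 < δ ∧ 1 ≤ K₀ ∧ ∀ K T : ℝ, K₀ ≤ K → 0 ≤ T → ∀ L : Fin c → ℝ,
      (∀ j, |L j + lam j * T| ≤ T / K) → ∑ j, v j * L j ≤ -(δ * T) := by
  obtain ⟨w, hw⟩ : ∃ w, w = ∑ j, v j * lam j := ⟨_, rfl⟩
  obtain ⟨s, hs⟩ : ∃ s, s = ∑ j, |v j| := ⟨_, rfl⟩
  rw [← hw] at hv
  have hs0 : 0 ≤ s := by
    rw [hs]
    exact Finset.sum_nonneg fun j _ => abs_nonneg _
  refine ⟨w / 2, max 1 (2 * s / w), by positivity, le_max_left _ _, fun K T hK hT L hL => ?_⟩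
  have hK1 : 1 ≤ K := (le_max_left _ _).trans hK
  have hK2 : 2 * s / w ≤ K := (le_max_right _ _).trans hK
  have hK0 : 0 < K := by linarith
  have h1 : ∑ j, v j * L j = ∑ j, v j * (L j + lam j * T) - w * T := by
    rw [hw, Finset.sum_mul, ← Finset.sum_sub_distrib]
    exact Finset.sum_congr rfl fun j _ => by ring
  have h2 : ∑ j, v j * (L j + lam j * T) ≤ s * (T / K) := by
    rw [hs, Finset.sum_mul]
    refine Finset.sum_le_sum fun j _ => ?_
    calc v j * (L j + lam j * T) ≤ |v j * (L j + lam j * T)| := le_abs_self _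
      _ = |v j| * |L j + lam j * T| := abs_mul _ _
      _ ≤ |v j| * (T / K) := mul_le_mul_of_nonneg_left (hL j) (abs_nonneg _)
  have h3 : s * (T / K) ≤ w / 2 * T := by
    have h4 : s / K ≤ w / 2 := by
      rw [div_le_iff₀ hv] at hK2
      rw [div_le_iff₀ hK0]
      linarith
    calc s * (T / K) = s / K * T := by ring
      _ ≤ w / 2 * T := mul_le_mul_of_nonneg_right h4 hT
  rw [h1]
  linarith

theorem gap_fin {ι : Type} (F : Finset ι) {c : ℕ} (lam : Fin c → ℝ) (v : ι → Fin c → ℝ) :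
    ∃ δ K₀ : ℝ, 0 < δ ∧ 1 ≤ K₀ ∧ ∀ i ∈ F, 0 < ∑ j, v i j * lam j → ∀ K T : ℝ, K₀ ≤ K → 0 ≤ T →
      ∀ L : Fin c → ℝ, (∀ j, |L j + lam j * T| ≤ T / K) → ∑ j, v i j * L j ≤ -(δ * T) := by
  classical
  induction F using Finset.induction_on with
  | empty => exact ⟨1, 1, one_pos, le_rfl, fun i hi => absurd hi (Finset.notMem_empty i)⟩
  | insert a s ha ih =>
    obtain ⟨δ, K₀, hδ, hK₀, ih⟩ := ih
    by_cases h0 : 0 < ∑ j, v a j * lam j
    · obtain ⟨δ', K', hδ', hK', h⟩ := gap h0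
      refine ⟨min δ δ', max K₀ K', lt_min hδ hδ', hK₀.trans (le_max_left _ _), ?_⟩
      intro i hi hi0 K T hK hT L hL
      rcases Finset.mem_insert.1 hi with rfl | hi
      · have h1 := h K T ((le_max_right _ _).trans hK) hT L hL
        have h2 : min δ δ' * T ≤ δ' * T := mul_le_mul_of_nonneg_right (min_le_right _ _) hT
        linarith
      · have h1 := ih i hi hi0 K T ((le_max_left _ _).trans hK) hT L hL
        have h2 : min δ δ' * T ≤ δ * T := mul_le_mul_of_nonneg_right (min_le_left _ _) hT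
        linarith
    · refine ⟨δ, K₀, hδ, hK₀, ?_⟩
      intro i hi hi0
      rcases Finset.mem_insert.1 hi with rfl | hi
      · exact absurd hi0 h0
      · exact ih i hi hi0

theorem exp_small (s : ℝ) {δ : ℝ} (hδ : 0 < δ) : ∃ K : ℝ, 2 ≤ K ∧ ∀ T : ℝ, K ≤ T →
    Real.exp (-(δ * T)) ≤ T ^ (-s) := by
  have h := tendsto_rpow_mul_exp_neg_mul_atTop_nhds_zero s δ hδ
  have h1 : ∀ᶠ T : ℝ in atTop, T ^ s * Real.exp (-δ * T) ≤ 1 :=
    (h.eventually (gt_mem_nhds one_pos)).mono fun T hT => hT.le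
  obtain ⟨K, hK⟩ := eventually_atTop.1 h1
  refine ⟨max 2 K, le_max_left _ _, fun T hT => ?_⟩
  have hT2 : 2 ≤ T := (le_max_left _ _).trans hT
  have hT0 : 0 < T := by linarith
  have h2 := hK T ((le_max_right _ _).trans hT)
  rw [neg_mul] at h2
  rw [Real.rpow_neg hT0.le]
  have h3 : 0 < T ^ s := Real.rpow_pos_of_pos hT0 _
  rw [← one_div, le_div_iff₀ h3]
  linarith

theorem log_small (C : ℝ) {δ : ℝ} (hδ : 0 < δ) : ∃ K : ℝ, 2 ≤ K ∧ ∀ T : ℝ, K ≤ T →
    C * Real.log T < δ * T := by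
  obtain ⟨K, hK, h⟩ := exp_small (C + 1) hδ
  refine ⟨K, hK, fun T hT => ?_⟩
  have hT2 : 2 ≤ T := hK.trans hT
  have hT0 : 0 < T := by linarith
  have h1 := Real.log_le_log (Real.exp_pos _) (h T hT)
  rw [Real.log_exp, Real.log_rpow hT0] at h1
  have h2 : 0 < Real.log T := Real.log_pos (by linarith)
  linarith

theorem indep {c : ℕ} {lam : Fin c → ℝ} (h : LinearIndependent ℚ lam) {v : Fin c → ℚ}
    (hv : ∑ j, ((v j : ℚ) : ℝ) * lam j = 0) : v = 0 := by
  funext j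
  refine Fintype.linearIndependent_iff.1 h v ?_ j
  rw [← hv]
  exact Finset.sum_congr rfl fun j _ => Rat.smul_def _ _

theorem norm_mon {c : ℕ} {Y : Fin c → ℂ} (hY : ∀ j, Y j ≠ 0) (α : Fin c → ℕ) :
    ‖∏ j, Y j ^ α j‖ = Real.exp (∑ j, (α j : ℝ) * Real.log ‖Y j‖) := by
  rw [norm_prod, Real.exp_sum]
  refine Finset.prod_congr rfl fun j _ => ?_
  rw [norm_pow, mul_comm, Real.exp_mul, Real.exp_log (norm_pos_iff.2 (hY j)), Real.rpow_natCast]

end Pool.Agent.Q208.EL
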